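import Pool.Agent.H59.HF.Main

/-! # MP_7e3f48_co: finitely many additional creases suffice around a common vertex

For every chain of convex polygons whose hinges issue from one common vertex (any number of polygons,
any total angle), every two configurations are joined by a motion with finitely many additional
creases, all of them issuing from the common vertex. -/

namespace Pool.Agent.Results.MP_7e3f48_co.SingleVertex

open Pool.Agent.H59.HF

theorem result {k : ℕ} (H : HChain k) (f g : Fin (k + 1) → E2 → E3)
    (hf : IsConfig H f) (hg : IsConfig H g) :
    ∃ C, Drawn H C ∧ (∀ i, ∀ p ∈ C i, p.1 = H.V i) ∧ ∃ F, Motion H C f g F :=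
  Pool.Agent.H59.HF.main H hf hg

end Pool.Agent.Results.MP_7e3f48_co.SingleVertex
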